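import Pool.Agent.Helper50.HT.Stmts

set_option autoImplicit false

namespace Pool.Agent.Helper40.HT

open Pool.Agent.Helper50.HT

theorem SDF : ST_SDF := by
  intro f f' f'' B h1 h2 h3
  have c1 : ∀ a b : ℝ, -1 ≤ a → b ≤ 1 → ContinuousOn f (Set.Icc a b) := by
    intro a b ha hb x hx
    exact (h1 x (by linarith [hx.1]) (by linarith [hx.2])).continuousAt.continuousWithinAt
  have c2 : ∀ a b : ℝ, -1 ≤ a → b ≤ 1 → ContinuousOn f' (Set.Icc a b) := by
    intro a b ha hb x hx
    exact (h2 x (by linarith [hx.1]) (by linarith [hx.2])).continuousAt.continuousWithinAt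
  obtain ⟨u, hu, hu'⟩ := exists_hasDerivAt_eq_slope f f' (show (0 : ℝ) < 1 by norm_num)
    (c1 0 1 (by norm_num) le_rfl) (fun x hx => h1 x (by linarith [hx.1]) hx.2.le)
  obtain ⟨v, hv, hv'⟩ := exists_hasDerivAt_eq_slope f f' (show (-1 : ℝ) < 0 by norm_num)
    (c1 (-1) 0 le_rfl (by norm_num)) (fun x hx => h1 x hx.1.le (by linarith [hx.2]))
  have huv : v < u := by linarith [hu.1, hv.2]
  obtain ⟨w, hw, hw'⟩ := exists_hasDerivAt_eq_slope f' f'' huv
    (c2 v u hv.1.le hu.2.le)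
    (fun x hx => h2 x (by linarith [hx.1, hv.1]) (by linarith [hx.2, hu.2]))
  have hb := h3 w (by linarith [hw.1, hv.1]) (by linarith [hw.2, hu.2])
  have e1 : f 1 + f (-1) - 2 * f 0 = f' u - f' v := by
    rw [hu', hv']
    ring
  have e2 : f' u - f' v = f'' w * (u - v) := by
    rw [hw', div_mul_cancel₀]
    linarith
  rw [e1, e2, abs_mul, abs_of_pos (by linarith : 0 < u - v)]
  have hB : 0 ≤ B := le_trans (abs_nonneg _) hb
  have h4 : u - v ≤ 2 := by linarith [hu.2, hv.1]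
  nlinarith [abs_nonneg (f'' w)]

end Pool.Agent.Helper40.HT
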